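import Pool.Agent.H18.GL.Theory
import Pool.Agent.H41.GL.Main

/-!
# MP_05ea9f_pr: the critical density of the 5-regular tree is smaller than 1/2

Zero-temperature Glauber dynamics with rate-one Poisson clocks, started from independent spins equal
to `+1` with probability `p`.  The definitions are in `Pool.Agent.H18.GL.Model`.
-/

open MeasureTheory
open Pool.Agent.H18.GL

/-- `p_c < 1/2` on the 5-regular tree; so it is not true that `p_c = 1/2` for all `d ≥ 4`. -/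
theorem Pool.Agent.Results.MP_05ea9f_pr.PcFiveLtHalf.result :
    (∃ (V : Type) (G : SimpleGraph V) (_ : G.LocallyFinite), G.IsTree ∧ G.IsRegularOfDegree 5) ∧
    (∀ (V : Type) (G : SimpleGraph V) (_ : G.LocallyFinite), G.IsTree → G.IsRegularOfDegree 5 →
      ∀ p : ℝ, 0 ≤ p → p ≤ 1 → Nonempty (Dynamics G p)) ∧
    (∃ p0 : ℝ, p0 < 1 / 2 ∧ ∀ (V : Type) (G : SimpleGraph V) (_ : G.LocallyFinite),
      G.IsTree → G.IsRegularOfDegree 5 → ∀ p : ℝ, p0 ≤ p → p ≤ 1 →
        ∀ (o : V) (X : Dynamics G p), ¬ ∀ᵐ ω ∂X.P, FixMinus X o ω) ∧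
    pc 5 < 1 / 2 ∧
    ¬ ∀ d : ℕ, 4 ≤ d → pc d = 1 / 2 :=
  full_of_cavity Pool.Agent.H41.GL.cavity_main
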